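import Pool.Agent.H902R2.HO.Stubs2

/-!
ROOM HO, task CH (helper655): the chart for the second frame.
-/

namespace H655HO

open H902HO

theorem CH : St_CH := by
  rintro ⟨a1, a2, a3⟩ ⟨b1, b2, b3⟩ ⟨X, Y, Z⟩ ⟨d11, d22, d12, hcr⟩ hZ
  simp only [T.dot, T.cr, T.mk.injEq] at d11 d22 d12 hcr
  obtain ⟨hX, hY, hZ'⟩ := hcr
  simp only at hZ ⊢
  have e13 : a1 * X + a2 * Y + a3 * Z = 0 := by rw [← hX, ← hY, ← hZ']; ring
  have e33 : X ^ 2 + Y ^ 2 + Z ^ 2 = 1 := by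
    rw [← hX, ← hY, ← hZ']
    linear_combination (b1 * b1 + b2 * b2 + b3 * b3) * d11 + d22 -
      (a1 * b1 + a2 * b2 + a3 * b3) * d12
  have f1 : b1 = Y * a3 - Z * a2 := by
    rw [← hY, ← hZ']; linear_combination (-b1) * d11 + a1 * d12
  have f2 : b2 = Z * a1 - X * a3 := by
    rw [← hX, ← hZ']; linear_combination (-b2) * d11 + a2 * d12
  have f3 : b3 = X * a2 - Y * a1 := by
    rw [← hX, ← hY]; linear_combination (-b3) * d11 + a3 * d12
  have hpos : 0 < 1 - X ^ 2 := by nlinarith [sq_nonneg Y]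
  obtain ⟨c2, hc2⟩ : ∃ c2, c2 = √(1 - X ^ 2) := ⟨_, rfl⟩
  have hc2p : 0 < c2 := by rw [hc2]; exact Real.sqrt_pos.2 hpos
  have hc2s : c2 ^ 2 = 1 - X ^ 2 := by rw [hc2]; exact Real.sq_sqrt hpos.le
  obtain ⟨o1, ho1⟩ : ∃ o1, o1 = -Y / c2 := ⟨_, rfl⟩
  have ho1m : o1 * c2 = -Y := by rw [ho1]; field_simp
  obtain ⟨c1, hc1⟩ : ∃ c1, c1 = Z / c2 := ⟨_, rfl⟩
  have hc1m : c1 * c2 = Z := by rw [hc1]; field_simp
  have hc1p : 0 ≤ c1 := by rw [hc1]; positivity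
  have hs1 : c1 ^ 2 + o1 ^ 2 = 1 := by
    have h : (c1 ^ 2 + o1 ^ 2 - 1) * c2 ^ 2 = 0 := by
      have : (c1 * c2) ^ 2 + (o1 * c2) ^ 2 - c2 ^ 2 = 0 := by
        rw [hc1m, ho1m, hc2s]; linear_combination e33
      linear_combination this
    rcases mul_eq_zero.1 h with h | h
    · linarith
    · exact absurd h (by positivity)
  have hsq : √(1 - o1 ^ 2) = c1 := by
    rw [show 1 - o1 ^ 2 = c1 ^ 2 by linarith, Real.sqrt_sq hc1p]
  have hv : a1 * X + a2 * (-(o1 * c2)) + a3 * (c1 * c2) = 0 := by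
    rw [ho1m, hc1m]; linear_combination e13
  refine ⟨a1 * c2 + a2 * (o1 * X) - a3 * (c1 * X), a2 * c1 + a3 * o1, o1, X, ?_, ?_, ?_, ?_, ?_, ?_⟩
  · -- the square of the projection
    have h2 := hv
    linear_combination d11 - (a1 * X + a2 * (-(o1 * c2)) + a3 * (c1 * c2)) * hv +
      (a1 ^ 2 + (a2 * o1 - a3 * c1) ^ 2) * hc2s + (a2 ^ 2 + a3 ^ 2) * hs1
  · -- `o1`
    have h1 : o1 ^ 2 * c2 ^ 2 = Y ^ 2 := by
      calc o1 ^ 2 * c2 ^ 2 = (o1 * c2) ^ 2 := by ring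
        _ = Y ^ 2 := by rw [ho1m]; ring
    have h2 : o1 ^ 2 * c2 ^ 2 ≤ (1 - Z ^ 2) * c2 ^ 2 := by
      rw [h1, hc2s]
      nlinarith [sq_nonneg (X * Z)]
    exact le_of_mul_le_mul_right h2 (by positivity)
  · nlinarith [sq_nonneg Y]
  · rw [hsq, ← hc2]
    ext
    · simp only [cy1, cu1, cu2, T.add_x, T.smul_x]
      linear_combination X * hv - a1 * hc2s
    · simp only [cy1, cu1, cu2, T.add_y, T.smul_y]
      linear_combination (-(o1 * c2)) * hv - (a2 * o1 ^ 2 - a3 * o1 * c1) * hc2s - a2 * hs1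
    · simp only [cy1, cu1, cu2, T.add_z, T.smul_z]
      linear_combination (c1 * c2) * hv - (a3 * c1 ^ 2 - a2 * o1 * c1) * hc2s - a3 * hs1
  · rw [hsq, ← hc2]
    ext
    · simp only [cy2, cu1, cu2, T.add_x, T.smul_x, T.neg_x]
      rw [f1, ← hc1m, show Y = -(o1 * c2) by linarith]
      ring
    · simp only [cy2, cu1, cu2, T.add_y, T.smul_y, T.neg_y]
      rw [f2, ← hc1m]
      linear_combination (a3 * X) * hs1
    · simp only [cy2, cu1, cu2, T.add_z, T.smul_z, T.neg_z]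
      rw [f3, show Y = -(o1 * c2) by linarith]
      linear_combination (-(a2 * X)) * hs1
  · rw [hsq, ← hc2]
    ext
    · simp [cy3]
    · simp only [cy3]; linarith
    · simp only [cy3]; linarith

end H655HO
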